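import Pool.Agent.Y366.TL.Main
import Pool.Agent.Y366.TL.Delay
import Pool.Agent.Y366.TL.Block

/-!
# Equality sets of injective morphisms on three letters need not be context-free

On every finite alphabet `S` with at least three letters there are two injective morphisms into the
free monoid on two letters, the first of which is even of bounded delay (from left to right), whose
equality set is not context-free. This contains the negative answer to the question, where
regularity is asked for. The equality set is described exactly by a one-counter machine which has
to repeat its counter, and the pumping lemma with a colouring of the contexts is applied to the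
words `∏ i = 1, ..., n, A B ^ i ∏ i = n, ..., 1, C B ^ (i - 1)`.
-/

set_option autoImplicit false

namespace Pool.Agent.Results.MP_195d7c_lc.NotContextFree

/-- The equality set `E(h, g) = {w ∈ S* | h(w) = g(w)}` of two morphisms of free monoids. -/
def equalitySet {S D : Type} (h g : FreeMonoid S →* FreeMonoid D) : Language S :=
  {w | h (FreeMonoid.ofList w) = g (FreeMonoid.ofList w)}

/-- The morphism `h` is of bounded delay `p` (from left to right): for all letters `a`, `b` and all
words `u`, `v` such that `u` has length at least `p`, if `h(au)` is an initial segment of `h(bv)`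
then `a = b`. -/
def BoundedDelay {S D : Type} (p : ℕ) (h : FreeMonoid S →* FreeMonoid D) : Prop :=
  ∀ (a b : S) (u v : FreeMonoid S), p ≤ u.toList.length →
    (h (FreeMonoid.of a * u)).toList <+: (h (FreeMonoid.of b * v)).toList → a = b

open Pool.Agent.Results.MP_195d7c_lc.ThreeLetters (ext mor mor_ofList hh gg hh_injective
  gg_injective family not_isRegular_of_overflow) in
open Pool.Agent.Y366.TL in
/-- On every finite alphabet `S` with at least three letters (in particular on three and on four
letters) there are two injective morphisms `h`, `g` into the free monoid on two letters, `h` of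
bounded delay `2`, such that the equality set of `h` and `g` is not context-free; it is not regular
either. -/
theorem result : ∀ (S : Type) [Fintype S], 3 ≤ Fintype.card S →
    ∃ h g : FreeMonoid S →* FreeMonoid Bool, Function.Injective h ∧ Function.Injective g ∧
      BoundedDelay 2 h ∧ ¬ (equalitySet h g).IsContextFree ∧ ¬ (equalitySet h g).IsRegular := by
  classical
  intro S _ hS
  obtain ⟨A, B, C, hAB, hAC, hBC⟩ := Fintype.two_lt_card_iff.1 hS
  obtain ⟨c, hc, hc2⟩ := exists_binary (Bool ⊕ S)
  have hE : equalitySet (c.comp (mor (hh A B C))) (c.comp (mor (gg A B C))) =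
      ThreeLetters.equalitySet (mor (hh A B C)) (mor (gg A B C)) := by
    ext w
    change c (mor (hh A B C) (FreeMonoid.ofList w)) = c (mor (gg A B C) (FreeMonoid.ofList w)) ↔
      mor (hh A B C) (FreeMonoid.ofList w) = mor (gg A B C) (FreeMonoid.ofList w)
    exact hc.eq_iff
  refine ⟨c.comp (mor (hh A B C)), c.comp (mor (gg A B C)), ?_, ?_, ?_, ?_, ?_⟩
  · exact hc.comp (hh_injective A B C)
  · exact hc.comp (gg_injective A B C)
  · intro x y u v hu hp
    have h1 := hc2 _ _ hp
    have h2 : FreeMonoid.of x * u = FreeMonoid.ofList (x :: u.toList) := rfl
    have h3 : FreeMonoid.of y * v = FreeMonoid.ofList (y :: v.toList) := rfl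
    rw [h2, h3, mor_ofList, mor_ofList] at h1
    exact delay hAB hAC hBC x y _ _ hu h1
  · rw [hE]
    exact not_contextFree hAB hAC hBC
  · rw [hE]
    refine not_isRegular_of_overflow (hh A B C) (gg A B C) ?_
    refine family (A := A) (B := B) (C := C) (a := ThreeLetters.a S) (b := ThreeLetters.b S)
      ?_ ?_ ?_ ?_ ?_ ?_
    · simp [hh]
    · simp [hh, hAB.symm]
    · simp [hh, hAC.symm, hBC.symm]
    · simp [gg]
    · simp [gg, hAB.symm]
    · simp [gg, hAC.symm, hBC.symm]

end Pool.Agent.Results.MP_195d7c_lc.NotContextFree
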